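import Pool.Agent.Run7.h700.G.PolyG5
import Pool.Agent.H606R2.MinRank.PolyT

/-!
# Counting points on diagonal hypersurfaces over prime fields

The number of solutions of a diagonal equation over `ZMod p` is computed in time polynomial in
`log p`, the number of variables and the degree, by computing all Jacobi sums of order dividing the
degree: the ideal of a Jacobi sum is known (Stickelberger), its square absolute value is `p`, and a
generator is found by a chain of lattices in the cyclotomic ring (in the manner of Gentry, Szydlo,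
Lenstra and Silverberg); the right generator is singled out by congruences modulo powers of the
primes dividing the order.
-/

set_option linter.unusedSectionVars false
set_option linter.style.haveILetI false
set_option linter.unusedVariables false

namespace Pool.Agent.Results.MP_50178a_lc.DiagonalEquations

open Pool.Agent.NPC Pool.Agent.H606R2.MinRank Pool.Agent.NPC.H606MinRank Run7.h700.G

/-- The number of solutions over `ZMod p` of the diagonal equation `∑ a_i x_i ^ k_i = b`, where
`(a_i, k_i)` runs over the list `ts`. -/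
noncomputable def count (p : ℕ) (ts : List (ℕ × ℕ)) (b : ℕ) : ℕ :=
  Nat.card {x : Fin ts.length → ZMod p //
    ∑ i, ((ts.get i).1 : ZMod p) * x i ^ (ts.get i).2 = (b : ZMod p)}

/-- `r` is nonzero modulo `p` and not an `l`-th power, for all primes `l` dividing `D` and
`p - 1`. -/
def Good (D p r : ℕ) : Prop :=
  (r : ZMod p) ≠ 0 ∧ ∀ l : ℕ, l.Prime → l ∣ D → l ∣ p - 1 → (r : ZMod p) ^ ((p - 1) / l) ≠ 1

theorem good_iff {D p r : ℕ} (hD : 0 < D) (hp : p.Prime) : Good D p r ↔
    IsPrimitiveRoot ((r : ZMod p) ^ ((p - 1) / Nat.gcd D (p - 1))) (Nat.gcd D (p - 1)) := by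
  haveI : Fact p.Prime := ⟨hp⟩
  have hp1 : 0 < p - 1 := by have := hp.one_lt; omega
  have hd0 : 0 < Nat.gcd D (p - 1) := Nat.gcd_pos_of_pos_left _ hD
  have hdp : Nat.gcd D (p - 1) ∣ p - 1 := Nat.gcd_dvd_right _ _
  set d := Nat.gcd D (p - 1) with hd
  have hq : 0 < (p - 1) / d := Nat.div_pos (Nat.le_of_dvd hp1 hdp) hd0
  have hmul : ∀ l, l ∣ d → (p - 1) / d * (d / l) = (p - 1) / l := by
    rintro l ⟨e, he⟩
    obtain ⟨m, hm⟩ := hdp
    have hl0 : 0 < l := Nat.pos_of_ne_zero fun h => by rw [h, zero_mul] at he; omega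
    rw [hm, Nat.mul_div_cancel_left _ hd0]
    conv_lhs => rw [he]
    conv_rhs => rw [he]
    rw [Nat.mul_div_cancel_left _ hl0, mul_assoc, Nat.mul_div_cancel_left _ hl0, mul_comm]
  constructor
  · rintro ⟨h0, h1⟩
    rw [IsPrimitiveRoot.iff_orderOf]
    apply orderOf_eq_of_pow_and_pow_div_prime hd0
    · rw [← pow_mul, Nat.div_mul_cancel hdp, ZMod.pow_card_sub_one_eq_one h0]
    · intro l hl hl2
      rw [← pow_mul, hmul l hl2]
      exact h1 l hl (hl2.trans (Nat.gcd_dvd_left _ _)) (hl2.trans hdp)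
  · intro h
    refine ⟨?_, ?_⟩
    · intro h0
      have h1 := h.pow_eq_one
      rw [h0, zero_pow hq.ne', zero_pow hd0.ne'] at h1
      exact zero_ne_one h1
    · intro l hl hl1 hl2 h2
      have hld : l ∣ d := Nat.dvd_gcd hl1 hl2
      rw [← hmul l hld, pow_mul] at h2
      have h6 := h.dvd_of_pow_eq_one _ h2
      have h7 := Nat.div_lt_self hd0 hl.one_lt
      have h8 : 0 < d / l := Nat.div_pos (Nat.le_of_dvd hd0 hld) hl.pos
      exact absurd (Nat.le_of_dvd h8 h6) (by omega)

open Classical in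
theorem mainA_eq {D p : ℕ} {rs : List ℕ} {ts : List (ℕ × ℕ)} {b : ℕ} (hD : 0 < D) (hp : p.Prime)
    (hts : ∀ t ∈ ts, 0 < t.2 ∧ Nat.gcd t.2 (p - 1) ∣ D) :
    mainA D (max 1 p) rs ts b = if ∃ r ∈ rs, Good D p r then some (count p ts b) else none := by
  haveI : Fact p.Prime := ⟨hp⟩
  have hp1 : 0 < p - 1 := by have := hp.one_lt; omega
  rw [max_eq_right hp.one_lt.le, mainA, cgcd_eq hD]
  have hd0 : 0 < Nat.gcd D (p - 1) := Nat.gcd_pos_of_pos_left _ hD
  set d := Nat.gcd D (p - 1) with hd
  haveI : NeZero d := ⟨hd0.ne'⟩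
  cases hw : findW p d rs with
  | none =>
    have h1 := findW_none hd0 hw
    rw [if_neg]
    · rfl
    · rintro ⟨r, hr, hg⟩
      exact h1 r hr ((good_iff hD hp).1 hg)
  | some w =>
    have h1 := findW_some hd0 hw
    rw [if_pos]
    · rw [Option.map_some, Option.some_inj, R.mainN_spec h1 (Nat.gcd_dvd_right _ _), R.cntL_card,
        count, Nat.card_eq_fintype_card]
      · refine Fintype.card_congr ?_
        have hlen : (ts.map fun t => ((t.1 : ZMod p), t.2)).length = ts.length := by simp
        refine (Equiv.arrowCongr (finCongr hlen) (Equiv.refl (ZMod p))).subtypeEquiv fun x => ?_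
        rw [← (finCongr hlen).sum_comp]
        simp
      · intro t ht
        obtain ⟨h2, h3⟩ := hts t ht
        refine ⟨h2, Nat.dvd_gcd ?_ (Nat.gcd_dvd_left _ _)⟩
        rwa [Nat.gcd_comm]
    · rw [findW] at hw
      have h2 := List.mem_of_head? hw
      have h3 := (List.mem_filter.1 h2).1
      obtain ⟨r, hr, rfl⟩ := List.mem_map.1 h3
      refine ⟨r, hr, (good_iff hD hp).2 ?_⟩
      rw [powm_eq, ZMod.natCast_mod] at h1
      push_cast at h1
      exact h1

open Classical in
/-- **Diagonal equations over prime fields.** -/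
theorem result :
    (∃ F : List Unit × ℕ × List ℕ × List (ℕ × ℕ) × ℕ → Option ℕ, PolyTimeMap F ∧
      ∀ (D p : ℕ) (rs : List ℕ) (ts : List (ℕ × ℕ)) (b : ℕ), 0 < D → p.Prime →
        (∀ t ∈ ts, 0 < t.2 ∧ Nat.gcd t.2 (p - 1) ∣ D) →
        F (List.replicate D (), p, rs, ts, b) =
          if ∃ r ∈ rs, Good D p r then some (count p ts b) else none) ∧
    (∀ n : ℕ, ∃ F : ℕ × List ℕ × List (ℕ × List Unit) × ℕ → Option ℕ, PolyTimeMap F ∧
      ∀ (p : ℕ) (rs : List ℕ) (ts : List (ℕ × List Unit)) (b : ℕ), p.Prime → ts.length = n →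
        (∀ t ∈ ts, t.2 ≠ []) →
        F (p, rs, ts, b) =
          if ∃ r ∈ rs, Good (ts.map fun t => t.2.length).prod p r then
            some (count p (ts.map fun t => (t.1, t.2.length)) b) else none) ∧
    ∀ D p : ℕ, 0 < D → p.Prime →
      p - 1 ≤ D * ((Finset.range p).filter fun r => Good D p r).card := by
  refine ⟨?_, ?_, ?_⟩
  · refine ⟨fun x => mainA x.1.length (max 1 x.2.1) x.2.2.1 x.2.2.2.1 x.2.2.2.2,
      polyTimeMap_of_poly ?_, ?_⟩
    · exact poly_F1
    · intro D p rs ts b hD hp hts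
      rw [← mainA_eq hD hp hts]
      simp
  · intro n
    refine ⟨fun x => mainA (prodE n x.2.2.1) (max 1 x.1) x.2.1
      (x.2.2.1.map fun t => (t.1, t.2.length)) x.2.2.2, polyTimeMap_of_poly ?_, ?_⟩
    · exact poly_F2 n
    · intro p rs ts b hp hn hts
      subst hn
      have hD : 0 < (ts.map fun t => t.2.length).prod := by
        refine List.prod_pos fun a ha => ?_
        obtain ⟨t, ht, rfl⟩ := List.mem_map.1 ha
        exact List.length_pos_iff.2 (hts t ht)
      simp only [prodE_eq]
      refine mainA_eq hD hp fun t ht => ?_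
      obtain ⟨s, hs, rfl⟩ := List.mem_map.1 ht
      exact ⟨List.length_pos_iff.2 (hts s hs), (Nat.gcd_dvd_left _ _).trans
        (List.dvd_prod (List.mem_map_of_mem hs))⟩
  · intro D p hD hp
    haveI : Fact p.Prime := ⟨hp⟩
    have hd0 : 0 < Nat.gcd D (p - 1) := Nat.gcd_pos_of_pos_left _ hD
    haveI : NeZero (Nat.gcd D (p - 1)) := ⟨hd0.ne'⟩
    have h1 := R.good_count (p := p) (Nat.gcd_dvd_right D (p - 1))
    refine h1.trans (Nat.mul_le_mul (Nat.le_of_dvd hD (Nat.gcd_dvd_left _ _)) (le_of_eq ?_))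
    congr 1
    exact Finset.filter_congr fun r _ => (good_iff hD hp).symm

end Pool.Agent.Results.MP_50178a_lc.DiagonalEquations
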